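import Mathlib

/-!
# MP_ba75bf_co: in every Krull dimension the second player wins Ideal Chomp on some ring

The ring is the ring of formal power series over `ℂ` in `n` variables with real constant term; the
second player answers a move `x` by `i x`.
-/

namespace Pool.Agent.Results.MP_ba75bf_co.EveryDimension

/-! ### The game -/

/-- The ideal generated by the moves `a 0, …, a (n - 1)`. -/
def pos {R : Type} [CommRing R] (a : ℕ → R) (n : ℕ) : Ideal R := Ideal.span (a '' Set.Iio n)

/-- The second player (who makes the moves `a 1, a 3, a 5, …`) has a winning strategy in the Ideal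
Chomp Game on `R`: a map `σ` from histories to moves such that in every play `a` consistent with
`σ`, in which the first player moves legally as long as nobody has produced `R`, there is a move
`a (2 k)` of the first player which produces `R` (and nobody did so before), and all moves of the
second player before it were legal. -/
def SecondWins (R : Type) [CommRing R] : Prop :=
  ∃ σ : List R → R, ∀ a : ℕ → R,
    (∀ k, a (2 * k + 1) = σ ((List.range (2 * k + 1)).map a)) →
    (∀ k, pos a (2 * k) ≠ ⊤ → a (2 * k) ∉ pos a (2 * k)) →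
    ∃ k, pos a (2 * k) ≠ ⊤ ∧ pos a (2 * k + 1) = ⊤ ∧ ∀ j < k, a (2 * j + 1) ∉ pos a (2 * j + 1)

/-! ### The ambient ring -/

/-- The data we need of the ambient ring `S`. -/
structure Good (S : Type) [CommRing S] (π : S →+* ℂ) (ι : ℂ →+* S) : Prop where
  noeth : IsNoetherianRing S
  unit : ∀ s, π s ≠ 0 → IsUnit s
  sec : ∀ z, π (ι z) = z

lemma Good.isLocalRing {S : Type} [CommRing S] {π : S →+* ℂ} {ι : ℂ →+* S} (h : Good S π ι) :
    IsLocalRing S := by
  have : IsLocalHom π := ⟨fun s hs => h.unit s hs.ne_zero⟩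
  exact RingHom.domain_isLocalRing π

open PowerSeries in
lemma exists_good (n : ℕ) : ∃ (S : Type) (_ : CommRing S) (π : S →+* ℂ) (ι : ℂ →+* S),
    Good S π ι ∧ ringKrullDim S = n := by
  induction n with
  | zero =>
    refine ⟨ℂ, inferInstance, RingHom.id ℂ, RingHom.id ℂ, ⟨inferInstance, ?_, ?_⟩, ?_⟩
    · intro s hs; exact IsUnit.mk0 s hs
    · intro z; rfl
    · simp
  | succ n ih =>
    obtain ⟨S, _, π, ι, hS, hd⟩ := ih
    have := hS.noeth
    have := hS.isLocalRing
    refine ⟨S⟦X⟧, inferInstance, π.comp (constantCoeff (R := S)), (C (R := S)).comp ι,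
      ⟨inferInstance, ?_, ?_⟩, ?_⟩
    · intro s hs
      rw [isUnit_iff_constantCoeff]
      exact hS.unit _ hs
    · intro z
      simp [hS.sec]
    · have : IsLocalRing S⟦X⟧ := inferInstanceAs (IsLocalRing (MvPowerSeries Unit S))
      have hX : (X : S⟦X⟧) ∈ nonZeroDivisors S⟦X⟧ := by
        rw [mem_nonZeroDivisors_iff_right]
        intro f hf
        rw [mul_comm] at hf
        exact X_mul_injective (by simpa using hf)
      have hm : (X : S⟦X⟧) ∈ IsLocalRing.maximalIdeal S⟦X⟧ := by
        rw [IsLocalRing.mem_maximalIdeal, mem_nonunits_iff, isUnit_iff_constantCoeff]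
        simp
      have h1 := ringKrullDim_quotient_span_singleton_succ_eq_ringKrullDim_of_mem_nonZeroDivisors
        hX hm
      have hk : Ideal.span {(X : S⟦X⟧)} = RingHom.ker (constantCoeff (R := S)) := by
        ext f
        rw [Ideal.mem_span_singleton, X_dvd_iff, RingHom.mem_ker]
      have e : (S⟦X⟧ ⧸ Ideal.span {(X : S⟦X⟧)}) ≃+* S :=
        (Ideal.quotEquivOfEq hk).trans
          (RingHom.quotientKerEquivOfSurjective constantCoeff_surj)
      rw [← h1, ringKrullDim_eq_of_ringEquiv e, hd]
      simp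

/-! ### The subring of elements with real residue -/

section Sub

variable {S : Type} [CommRing S] {π : S →+* ℂ} {ι : ℂ →+* S}

/-- The subring of all `s` for which `π s` is real. -/
def realSub (π : S →+* ℂ) : Subring S where
  carrier := {s | (π s).im = 0}
  mul_mem' := by
    intro a b ha hb
    simp only [Set.mem_ofPred_eq] at *
    rw [map_mul, Complex.mul_im, ha, hb]; ring
  one_mem' := by simp
  add_mem' := by
    intro a b ha hb
    simp only [Set.mem_ofPred_eq] at *
    rw [map_add, Complex.add_im, ha, hb]; ring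
  zero_mem' := by simp
  neg_mem' := by
    intro a ha
    simp only [Set.mem_ofPred_eq] at *
    rw [map_neg, Complex.neg_im, ha]; ring

lemma mem_realSub {s : S} : s ∈ realSub π ↔ (π s).im = 0 := Iff.rfl

/-- Every `s` is `r + i t` with `r`, `t` in the subring. -/
lemma decomp (h : Good S π ι) (s : S) :
    ∃ r t : realSub π, s = (r : S) + ι Complex.I * (t : S) := by
  refine ⟨⟨s - ι Complex.I * ι ((π s).im : ℂ), ?_⟩, ⟨ι ((π s).im : ℂ), ?_⟩, ?_⟩
  · rw [mem_realSub, map_sub, map_mul, h.sec, h.sec]
    simp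
  · rw [mem_realSub, h.sec]; simp
  · simp

lemma isIntegral_S (h : Good S π ι) : Algebra.IsIntegral (realSub π) S := by
  have hI : IsIntegral (realSub π) (ι Complex.I) := by
    refine ⟨Polynomial.X ^ 2 + Polynomial.C 1, Polynomial.monic_X_pow_add_C 1 two_ne_zero, ?_⟩
    rw [Polynomial.eval₂_add, Polynomial.eval₂_X_pow, Polynomial.eval₂_C, map_one, ← map_pow,
      Complex.I_sq, map_neg, map_one]
    ring
  refine ⟨fun s => ?_⟩
  obtain ⟨r, t, rfl⟩ := decomp h s
  have hr : IsIntegral (realSub π) (r : S) := isIntegral_algebraMap (x := r)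
  have ht : IsIntegral (realSub π) (t : S) := isIntegral_algebraMap (x := t)
  exact hr.add (hI.mul ht)

lemma reflect (h : Good S π ι) (P Q : PrimeSpectrum S)
    (hPQ : P.asIdeal.comap (realSub π).subtype ≤ Q.asIdeal.comap (realSub π).subtype) :
    P.asIdeal ≤ Q.asIdeal := by
  intro q hq
  by_cases hy : ∃ y, π y = 0 ∧ y ∉ Q.asIdeal
  · obtain ⟨y, hy1, hy2⟩ := hy
    have hmem : q * y ∈ realSub π := by rw [mem_realSub, map_mul, hy1]; simp
    have h1 : (⟨q * y, hmem⟩ : realSub π) ∈ P.asIdeal.comap (realSub π).subtype := by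
      rw [Ideal.mem_comap]
      exact P.asIdeal.mul_mem_right _ hq
    have h2 := hPQ h1
    rw [Ideal.mem_comap] at h2
    exact (Q.isPrime.mem_or_mem h2).resolve_right hy2
  · push Not at hy
    apply hy
    by_contra hne
    exact P.isPrime.ne_top (Ideal.eq_top_of_isUnit_mem _ hq (h.unit q hne))

lemma dim_eq (h : Good S π ι) : ringKrullDim (realSub π) = ringKrullDim S := by
  have hint := isIntegral_S h
  set φ : PrimeSpectrum S → PrimeSpectrum (realSub π) :=
    fun P => ⟨P.asIdeal.comap (realSub π).subtype, P.isPrime.comap _⟩ with hφ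
  have hmono : ∀ P Q : PrimeSpectrum S, P ≤ Q → φ P ≤ φ Q := fun P Q hPQ =>
    Ideal.comap_mono hPQ
  have hrefl : ∀ P Q : PrimeSpectrum S, φ P ≤ φ Q → P ≤ Q := fun P Q hPQ => reflect h P Q hPQ
  apply le_antisymm
  · apply Order.krullDim_le_of_strictComono_and_surj φ
    · intro P Q hPQ
      exact lt_of_le_not_ge (hrefl P Q hPQ.le) fun hc => not_le_of_gt hPQ (hmono _ _ hc)
    · intro p
      have := p.isPrime
      obtain ⟨Q, -, hQ1, hQ2⟩ := Ideal.exists_ideal_over_prime_of_isIntegral
        (S := S) p.asIdeal ⊥ (by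
          intro x hx
          rw [Ideal.mem_comap, Ideal.mem_bot] at hx
          have : x = 0 := Subtype.ext hx
          rw [this]; exact p.asIdeal.zero_mem)
      exact ⟨⟨Q, hQ1⟩, PrimeSpectrum.ext hQ2⟩
  · apply Order.krullDim_le_of_strictMono φ
    intro P Q hPQ
    exact lt_of_le_not_ge (hmono _ _ hPQ.le) fun hc => not_le_of_gt hPQ (hrefl _ _ hc)

lemma isUnit_sub (h : Good S π ι) (x : realSub π) (hx : π (x : S) ≠ 0) : IsUnit x := by
  obtain ⟨u, hu⟩ := h.unit _ hx
  have h1 : (x : S) * ((u⁻¹ : Sˣ) : S) = 1 := by rw [← hu]; simp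
  have h2 : π (x : S) * π ((u⁻¹ : Sˣ) : S) = 1 := by rw [← map_mul, h1, map_one]
  have h3 : (π ((u⁻¹ : Sˣ) : S)).im = 0 := by
    have h4 : π ((u⁻¹ : Sˣ) : S) = (π (x : S))⁻¹ := eq_inv_of_mul_eq_one_right h2
    have h5 : (π (x : S)).im = 0 := x.2
    rw [h4, Complex.inv_im, h5]; simp
  refine IsUnit.of_mul_eq_one (⟨((u⁻¹ : Sˣ) : S), h3⟩ : realSub π) (Subtype.ext ?_)
  exact h1

/-- The answer of the second player to the move `x`. -/
noncomputable def J (h : Good S π ι) (x : realSub π) : realSub π :=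
  open Classical in
  if hx : π (x : S) = 0 then ⟨ι Complex.I * x, by rw [mem_realSub, map_mul, hx]; simp⟩ else 0

lemma J_val (h : Good S π ι) {x : realSub π} (hx : π (x : S) = 0) :
    ((J h x : realSub π) : S) = ι Complex.I * x := by
  unfold J
  rw [dif_pos hx]

lemma pos_succ {R : Type} [CommRing R] (a : ℕ → R) (n : ℕ) :
    pos a (n + 1) = Ideal.span (insert (a n) (a '' Set.Iio n)) := by
  unfold pos
  congr 1
  ext x
  simp only [Set.mem_image, Set.mem_Iio, Set.mem_insert_iff]
  constructor
  · rintro ⟨m, hm, rfl⟩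
    rcases Nat.lt_succ_iff_lt_or_eq.mp hm with h | h
    · exact Or.inr ⟨m, h, rfl⟩
    · exact Or.inl (by rw [h])
  · rintro (rfl | ⟨m, hm, rfl⟩)
    · exact ⟨n, Nat.lt_succ_self n, rfl⟩
    · exact ⟨m, by omega, rfl⟩

/-- The ideal of `S` generated by the first `2 k` moves. -/
def K (a : ℕ → realSub π) (k : ℕ) : Ideal S :=
  Ideal.span ((fun n => (a n : S)) '' Set.Iio (2 * k))

variable {a : ℕ → realSub π}

lemma stable (h : Good S π ι) {k : ℕ} (h1 : ∀ j < k, π (a (2 * j) : S) = 0)
    (h2 : ∀ j < k, (a (2 * j + 1) : S) = ι Complex.I * a (2 * j)) {x : realSub π}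
    (hx : x ∈ pos a (2 * k)) : ∃ y ∈ pos a (2 * k), (y : S) = ι Complex.I * x := by
  unfold pos at hx
  induction hx using Submodule.span_induction with
  | mem x hx =>
    obtain ⟨n, hn, rfl⟩ := hx
    rw [Set.mem_Iio] at hn
    rcases Nat.even_or_odd' n with ⟨j, rfl | rfl⟩
    · exact ⟨a (2 * j + 1), Ideal.subset_span ⟨2 * j + 1, Set.mem_Iio.mpr (by omega), rfl⟩,
        h2 j (by omega)⟩
    · refine ⟨-a (2 * j), (pos a (2 * k)).neg_mem
        (Ideal.subset_span ⟨2 * j, Set.mem_Iio.mpr (by omega), rfl⟩), ?_⟩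
      rw [h2 j (by omega), ← mul_assoc, ← map_mul, Complex.I_mul_I]
      simp
  | zero => exact ⟨0, (pos a (2 * k)).zero_mem, by simp⟩
  | add x y _ _ hx hy =>
    obtain ⟨x', hx1, hx2⟩ := hx
    obtain ⟨y', hy1, hy2⟩ := hy
    exact ⟨x' + y', (pos a (2 * k)).add_mem hx1 hy1, by push_cast; rw [hx2, hy2]; ring⟩
  | smul r x _ hx =>
    obtain ⟨x', hx1, hx2⟩ := hx
    exact ⟨r * x', (pos a (2 * k)).mul_mem_left _ hx1, by
      rw [smul_eq_mul]; push_cast; rw [hx2]; ring⟩

lemma K_sub (h : Good S π ι) {k : ℕ} (h1 : ∀ j < k, π (a (2 * j) : S) = 0)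
    (h2 : ∀ j < k, (a (2 * j + 1) : S) = ι Complex.I * a (2 * j)) {s : S}
    (hs : s ∈ K a k) : ∃ x ∈ pos a (2 * k), (x : S) = s := by
  unfold K at hs
  induction hs using Submodule.span_induction with
  | mem s hs =>
    obtain ⟨n, hn, rfl⟩ := hs
    exact ⟨a n, Ideal.subset_span ⟨n, hn, rfl⟩, rfl⟩
  | zero => exact ⟨0, (pos a (2 * k)).zero_mem, by simp⟩
  | add x y _ _ hx hy =>
    obtain ⟨x', hx1, hx2⟩ := hx
    obtain ⟨y', hy1, hy2⟩ := hy
    exact ⟨x' + y', (pos a (2 * k)).add_mem hx1 hy1, by push_cast; rw [hx2, hy2]⟩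
  | smul s x _ hx =>
    obtain ⟨x', hx1, hx2⟩ := hx
    obtain ⟨r, t, rfl⟩ := decomp h s
    obtain ⟨y', hy1, hy2⟩ := stable h h1 h2 hx1
    refine ⟨r * x' + t * y', (pos a (2 * k)).add_mem ((pos a (2 * k)).mul_mem_left _ hx1)
      ((pos a (2 * k)).mul_mem_left _ hy1), ?_⟩
    rw [smul_eq_mul]; push_cast; rw [hy2, hx2]; ring

lemma answer (h : Good S π ι) {k : ℕ} (h1 : ∀ j < k, π (a (2 * j) : S) = 0)
    (h2 : ∀ j < k, (a (2 * j + 1) : S) = ι Complex.I * a (2 * j))
    (h3 : (a (2 * k + 1) : S) = ι Complex.I * a (2 * k)) (h4 : a (2 * k) ∉ pos a (2 * k)) :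
    a (2 * k + 1) ∉ pos a (2 * k + 1) := by
  intro hc
  rw [pos_succ, Ideal.mem_span_insert'] at hc
  obtain ⟨r, hr⟩ := hc
  have hK : (ι Complex.I + (r : S)) * (a (2 * k) : S) ∈ K a k := by
    have : ∀ x : realSub π, x ∈ pos a (2 * k) → (x : S) ∈ K a k := by
      intro x hx
      unfold pos at hx
      induction hx using Submodule.span_induction with
      | mem x hx =>
        obtain ⟨n, hn, rfl⟩ := hx
        exact Ideal.subset_span ⟨n, hn, rfl⟩
      | zero => simp
      | add x y _ _ hx hy => push_cast; exact (K a k).add_mem hx hy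
      | smul r x _ hx => rw [smul_eq_mul]; push_cast; exact (K a k).mul_mem_left _ hx
    have := this _ hr
    push_cast at this
    rw [h3] at this
    convert this using 1
    ring
  have hu : IsUnit (ι Complex.I + (r : S)) := by
    apply h.unit
    rw [map_add, h.sec]
    intro h0
    have := congrArg Complex.im h0
    have hr0 : (π (r : S)).im = 0 := r.2
    rw [Complex.add_im, hr0] at this
    simp at this
  have hK2 : (a (2 * k) : S) ∈ K a k := (Ideal.unit_mul_mem_iff_mem _ hu).mp hK
  obtain ⟨x, hx1, hx2⟩ := K_sub h h1 h2 hK2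
  have : x = a (2 * k) := Subtype.ext hx2
  exact h4 (this ▸ hx1)

theorem secondWins (h : Good S π ι) : SecondWins (realSub π) := by
  have := h.noeth
  refine ⟨fun l => J h (l.getLastD 0), fun a hσ hleg => ?_⟩
  have hans : ∀ k, a (2 * k + 1) = J h (a (2 * k)) := by
    intro k
    rw [hσ k, List.range_succ, List.map_append]
    simp
  by_contra hno
  push Not at hno
  -- all first moves are non-units, all answers are legal
  have key : ∀ k, (∀ j < k, π (a (2 * j) : S) = 0) ∧
      ∀ j < k, a (2 * j + 1) ∉ pos a (2 * j + 1) := by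
    intro k
    induction k with
    | zero => exact ⟨fun j hj => absurd hj (by omega), fun j hj => absurd hj (by omega)⟩
    | succ k ih =>
      obtain ⟨ih1, ih2⟩ := ih
      have v2 : ∀ j < k, (a (2 * j + 1) : S) = ι Complex.I * a (2 * j) := by
        intro j hj
        rw [hans j, J_val h (ih1 j hj)]
      have hle : ∀ x ∈ pos a (2 * k), π (x : S) = 0 := by
        intro x hx
        have : pos a (2 * k) ≤ RingHom.ker (π.comp (realSub π).subtype) := by
          unfold pos
          rw [Ideal.span_le]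
          rintro _ ⟨n, hn, rfl⟩
          rw [Set.mem_Iio] at hn
          rw [SetLike.mem_coe, RingHom.mem_ker]
          rcases Nat.even_or_odd' n with ⟨j, rfl | rfl⟩
          · exact ih1 j (by omega)
          · simp only [RingHom.comp_apply, Subring.subtype_apply]
            rw [v2 j (by omega), map_mul, ih1 j (by omega), mul_zero]
        exact this hx
      have hne : pos a (2 * k) ≠ ⊤ := by
        intro htop
        have := hle 1 (by rw [htop]; trivial)
        simp at this
      have hz : π (a (2 * k) : S) = 0 := by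
        by_contra hz
        have hu := isUnit_sub h _ hz
        have htop : pos a (2 * k + 1) = ⊤ := by
          apply Ideal.eq_top_of_isUnit_mem _ _ hu
          exact Ideal.subset_span ⟨2 * k, Set.mem_Iio.mpr (by omega), rfl⟩
        obtain ⟨j, hj, hj2⟩ := hno k hne htop
        exact ih2 j hj hj2
      refine ⟨fun j hj => ?_, fun j hj => ?_⟩
      · rcases Nat.lt_succ_iff_lt_or_eq.mp hj with hj | rfl
        · exact ih1 j hj
        · exact hz
      · rcases Nat.lt_succ_iff_lt_or_eq.mp hj with hj | rfl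
        · exact ih2 j hj
        · exact answer h ih1 v2 (by rw [hans, J_val h hz]) (hleg _ hne)
  have z : ∀ j, π (a (2 * j) : S) = 0 := fun j => (key (j + 1)).1 j (by omega)
  have v : ∀ j, (a (2 * j + 1) : S) = ι Complex.I * a (2 * j) := fun j => by
    rw [hans j, J_val h (z j)]
  have hpos : ∀ k, pos a (2 * k) ≠ ⊤ := by
    intro k htop
    have : pos a (2 * k) ≤ RingHom.ker (π.comp (realSub π).subtype) := by
      unfold pos
      rw [Ideal.span_le]
      rintro _ ⟨n, -, rfl⟩
      rw [SetLike.mem_coe, RingHom.mem_ker]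
      rcases Nat.even_or_odd' n with ⟨j, rfl | rfl⟩
      · exact z j
      · simp only [RingHom.comp_apply, Subring.subtype_apply]
        rw [v j, map_mul, z j, mul_zero]
    have h1 : (1 : realSub π) ∈ RingHom.ker (π.comp (realSub π).subtype) :=
      this (by rw [htop]; trivial)
    rw [RingHom.mem_ker, map_one] at h1
    exact one_ne_zero h1
  have hKmono : Monotone (K a) := by
    intro k l hkl
    apply Ideal.span_mono
    apply Set.image_mono
    intro n hn
    rw [Set.mem_Iio] at *
    omega
  obtain ⟨n, hn⟩ := (monotone_stabilizes_iff_noetherian.mpr h.noeth) ⟨K a, hKmono⟩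
  have h1 : (a (2 * n) : S) ∈ K a n := by
    have h2 : K a n = K a (n + 1) := hn (n + 1) (by omega)
    rw [h2]
    exact Ideal.subset_span ⟨2 * n, Set.mem_Iio.mpr (by omega), rfl⟩
  obtain ⟨x, hx1, hx2⟩ := K_sub h (fun j _ => z j) (fun j _ => v j) h1
  have hxa : x = a (2 * n) := Subtype.ext hx2
  exact hleg n (hpos n) (hxa ▸ hx1)

end Sub

/-- For every `n` there is a ring of Krull dimension `n` on which the second player has a winning
strategy in the Ideal Chomp Game. -/
theorem result : ∀ n : ℕ, ∃ (R : Type) (_ : CommRing R), ringKrullDim R = n ∧ SecondWins R := by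
  intro n
  obtain ⟨S, _, π, ι, hS, hd⟩ := exists_good n
  exact ⟨realSub π, inferInstance, by rw [dim_eq hS, hd], secondWins hS⟩

end Pool.Agent.Results.MP_ba75bf_co.EveryDimension
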